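import Pool.Agent.Helper4.PQS.St0

/-!
Project PQS (helper4), module PPW: no object of prime power dimension.
-/

set_option autoImplicit false

namespace Pool.Agent.Helper36.PQS

open Pool.Agent.Helper4.PQS Pool.Agent.Helper46.WG Pool.Agent.Helper46.WG.IntegralModularDatum

theorem ppw_aux (hT : StTNS) : ∀ (c : ℕ) (I : Type) [Fintype I] [DecidableEq I]
    (M : IntegralModularDatum I), Fintype.card I = c → M.NoSym → ∀ X, ¬ IsPrimePow (M.d X) := by
  intro c
  induction c using Nat.strong_induction_on with
  | _ c ih =>
    intro I _ _ M hc hM X hX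
    by_cases hsim : M.Simple
    · obtain ⟨p, k, hp, hk, hpk⟩ := (isPrimePow_nat_iff _).1 hX
      have hX1 : X ≠ M.unit := by
        rintro rfl
        rw [M.d_unit] at hX
        exact not_isPrimePow_one hX
      have h1 := no_prime_power hsim hp hpk.symm hX1
      rw [h1] at hX
      exact not_isPrimePow_one hX
    · unfold Simple at hsim
      push Not at hsim
      obtain ⟨F, hF, hF1, hFu⟩ := hsim
      have hsub : ∀ F : Finset I, M.IsFusion F → F ≠ Finset.univ → ∀ i ∈ F,
          ¬ IsPrimePow (M.d i) := by
        intro F hF hFu i hi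
        have hC := M.radical hM hF
        have hlt : Fintype.card {i // i ∈ F} < c := by
          rw [Fintype.card_coe, ← hc]
          exact Finset.card_lt_univ_of_notMem (x := (Classical.choose (not_forall.1 fun h => hFu
            (Finset.eq_univ_iff_forall.2 h)))) (Classical.choose_spec (not_forall.1 fun h => hFu
            (Finset.eq_univ_iff_forall.2 h)))
        exact ih _ hlt _ (M.restrict F hF hC) rfl (M.restrict_noSym hM F hF hC) ⟨i, hi⟩
      have hF' : M.cent F ≠ Finset.univ := by
        intro h
        apply hF1
        have h2 : F ⊆ M.cent Finset.univ := by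
          rw [← h]
          exact M.sub_cent_cent F
        rw [M.cent_univ] at h2
        ext k
        constructor
        · exact fun hk => h2 hk
        · intro hk
          rw [Finset.mem_singleton.1 hk]
          exact hF.unit_mem
      obtain ⟨i, hi, j, hj, hij⟩ := hT I M hM F hF X
      have h1 := hsub F hF hFu i hi
      have h2 := hsub (M.cent F) (M.cent_fusion F) hF' j hj
      obtain ⟨p, k, hp, hk, hpk⟩ := (isPrimePow_nat_iff _).1 hX
      have hdi : M.d i ∣ p ^ k := by
        rw [hpk, hij]
        exact Dvd.intro _ rfl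
      have hdj : M.d j ∣ p ^ k := by
        rw [hpk, hij]
        exact Dvd.intro_left _ rfl
      obtain ⟨a, _, ha⟩ := (Nat.dvd_prime_pow hp).1 hdi
      obtain ⟨b, _, hb⟩ := (Nat.dvd_prime_pow hp).1 hdj
      have ha0 : a = 0 := by
        by_contra h
        exact h1 ((isPrimePow_nat_iff _).2 ⟨p, a, hp, Nat.pos_of_ne_zero h, ha.symm⟩)
      have hb0 : b = 0 := by
        by_contra h
        exact h2 ((isPrimePow_nat_iff _).2 ⟨p, b, hp, Nat.pos_of_ne_zero h, hb.symm⟩)
      rw [hij, ha, hb, ha0, hb0, pow_zero, mul_one] at hX
      exact not_isPrimePow_one hX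

theorem hPPW : StPPW := fun hT I _ _ M hM => ppw_aux hT _ I M rfl hM

end Pool.Agent.Helper36.PQS
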